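import Mathlib
import Pool.Agent.TOM.Fin

/-!
# MP_d93556_al: the answer is positive in all cardinalities

If `G` is an FC-group which is residually (finite derived subgroup), then `G/Z(G)` embeds in a
restricted direct product of finite groups.

Method: locally inner automorphisms with finite displacement and closed pairs (replacing
elementary submodels of arbitrary size) reduce the question to splitting abelian groups of
displacement functions with central values. There the socle is treated by linear algebra: for each
prime `p`, the functions from the elements of `G` with `n` conjugates to `ZMod p` decompose along
finite sets of labels `t` (`x` has label `t` when `t * x` is conjugate to `x`), which gives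
commuting idempotents `E t` with image the functions supported on the elements with label `t`, and
each function is moved by only countably many of them. Closing the submodels under these
idempotents makes the quotient of the socle a Kulikov type union of bounded pieces, so the closed
part is a direct factor at every step of a transfinite chain.
-/

namespace Pool.Agent.Results.MP_d93556_al.AllCardinals

open Subgroup

universe u

/-- Let `G` be an FC-group, residually (finite derived subgroup). Then there are finite groups
`F i` and an injective homomorphism from `G/Z(G)` to the product of the `F i` whose values have
only finitely many coordinates different from `1`. -/
theorem result {G : Type u} [Group G]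
    (hFC : ∀ x : G, (conjugatesOf x).Finite)
    (hX : ∀ g : G, g ≠ 1 → ∃ N : Subgroup G, ∃ _ : N.Normal, g ∉ N ∧
      Finite (_root_.commutator (G ⧸ N))) :
    ∃ (ι : Type u) (F : ι → Type u) (_ : ∀ i, Group (F i)) (_ : ∀ i, Finite (F i))
      (f : (G ⧸ center G) →* (∀ i, F i)), Function.Injective f ∧
        ∀ x, {i | f x i ≠ 1}.Finite :=
  Pool.Agent.TOM.main_all hFC hX

end Pool.Agent.Results.MP_d93556_al.AllCardinals
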